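import Pool.Agent.H832.Pair.Sigma
import Pool.Agent.H832.Pair.Torus

/-!
# The Bieri-Neumann-Strebel invariant of a three-dimensional Poincaré duality pair

Let `G` be a torsion-free group which is hyperbolic relative to subgroups `H_a ≅ ℤ²`, with Bowditch
boundary a 2-sphere.  By a theorem of Tshishiku and Walsh `(G; H_0, ..., H_(k-1))` is a Poincaré
duality pair of dimension three (`PDPair3`).  The relative Cannon conjecture predicts that `G` is
the group of a hyperbolic 3-manifold of finite volume with cusp groups `H_a`.  Then
(Stallings, Thurston, Bieri, Neumann and Strebel) a character `χ : G → ℝ` in `Σ¹(G)` would come from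
a nowhere vanishing closed 1-form, so `-χ` would also belong to `Σ¹(G)`, and `χ` would not vanish on
any cusp group: every algebraic fibration of `G` meets all cusps.  Here this is shown for all
Poincaré duality pairs of dimension three with Euler characteristic zero and virtually abelian
peripheral subgroups, and for all real characters, with discrete or dense image.  In particular it
holds for all pairs with peripheral subgroups `ℤ²`: the Euler characteristic is zero.

Idea of the proof.  Let `χ` be in `-Σ¹(G)`.  Then for large `r` all derivations of `G` with values in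
modules over the algebra of bounded operators on `ℓ¹(G)` and `ℓ²(G)`, twisted by the weight
`exp (r χ)`, are inner (starting library).  So the resolution of length two splits over this algebra
except in the top degree, where the homology is projective; its trace is the Euler characteristic,
so it is zero by Kaplansky's theorem.  By duality there are no homomorphisms from the dualising
module `ker (⨁ ℤ[G/H_a] → ℤ)` to modules over the opposite algebra, with the weight `exp (-r χ)`.  If
`χ` were zero on `H_a` then the orbit of a bounded function with support `H_a` would give such a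
homomorphism.  And a derivation of `G` whose restrictions to the subgroups `H_a` are inner gives such a
homomorphism, so it is inner; finally the restrictions to virtually abelian subgroups on which the
weight is not trivial are inner.

The Euler characteristic is computed from the dual of the resolution, the resolution and Koszul
complexes of the subgroups `ℤ²`, by Schanuel's lemma.
-/

set_option autoImplicit false

namespace Pool.Agent.Results.MP_04c03c_gt.SigmaOfPairs

open Pool.Agent.H832.Pair

open Pool.Agent.Q103.BNS in
theorem up_of_inSigma {G : Type} [Group G] {S : Finset G} {χ : G →* Multiplicative ℝ}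
    (h : InSigma S χ) (x : G) (hx : 0 ≤ (χ x).toAdd) :
    Relation.ReflTransGen (Up (fun g => (χ g).toAdd) (S : Set G)) 1 x := by
  have h1 : (0 : ℝ) ≤ (χ 1).toAdd := by rw [map_one]; exact le_rfl
  have h2 := (SimpleGraph.reachable_iff_reflTransGen _ _).1 (h.preconnected ⟨1, h1⟩ ⟨x, hx⟩)
  have hle : ((Cayley S).induce {g | 0 ≤ (χ g).toAdd}).Adj ≤
      (Function.onFun (Up (fun g => (χ g).toAdd) (S : Set G)) Subtype.val) := by
    rintro ⟨a, ha⟩ ⟨b, hb⟩ hab
    have h3 : (Cayley S).Adj a b := hab
    rw [Cayley, SimpleGraph.fromRel_adj] at h3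
    exact ⟨ha, hb, h3.2⟩
  exact Relation.ReflTransGen.lift _ hle _ _ h2

open Pool.Agent.Q103.BNS in
theorem inSigma_of_up {G : Type} [Group G] {S : Finset G} {χ : G →* Multiplicative ℝ}
    (h : ∀ x, 0 ≤ (χ x).toAdd →
      Relation.ReflTransGen (Up (fun g => (χ g).toAdd) (S : Set G)) 1 x) : InSigma S χ := by
  have h1 : (0 : ℝ) ≤ (χ 1).toAdd := by rw [map_one]; exact le_rfl
  have key : ∀ x, ∀ hx : 0 ≤ (χ x).toAdd,
      ((Cayley S).induce {g | 0 ≤ (χ g).toAdd}).Reachable ⟨1, h1⟩ ⟨x, hx⟩ := by
    intro x hx
    have h2 := h x hx
    induction h2 with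
    | refl => exact SimpleGraph.Reachable.refl _
    | @tail a b _ hst ih =>
      refine (ih hst.1).trans ?_
      by_cases hab : a = b
      · subst hab
        exact SimpleGraph.Reachable.refl _
      · refine SimpleGraph.Adj.reachable ?_
        show (Cayley S).Adj a b
        rw [Cayley, SimpleGraph.fromRel_adj]
        exact ⟨hab, hst.2.2⟩
  rw [InSigma, SimpleGraph.connected_iff]
  exact ⟨fun a b => (key a.1 a.2).symm.trans (key b.1 b.2), ⟨⟨1, h1⟩⟩⟩

/-- Let `(G; H_0, ..., H_(k-1))`, `k ≥ 1`, be a Poincaré duality pair of dimension three.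

1. If all `H_a` are isomorphic to `ℤ²` then the Euler characteristic of `G` is zero.
2. Let the Euler characteristic of `G` be zero and let all `H_a` be virtually abelian (for example as
in part 1). If a nonzero character `χ : G → ℝ` is in `Σ¹(G)`, then it is not zero on any `H_a`, and `-χ` is
in `Σ¹(G)`. -/
theorem result {G : Type} [Group G] (D : PDPair3 G) :
    ((∀ a, Nonempty (D.H a ≃* Multiplicative (ℤ × ℤ))) → D.euler = 0) ∧
    (D.euler = 0 → (∀ a, VirtAb (D.H a)) →
      ∀ S : Finset G, Subgroup.closure (S : Set G) = ⊤ → ∀ χ : G →* Multiplicative ℝ, χ ≠ 1 →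
        InSigma S χ → (∀ a, ∃ x ∈ D.H a, χ x ≠ 1) ∧ InSigma S χ⁻¹) := by
  refine ⟨euler_eq_zero D, fun hE hH S hS χ hχ h => ?_⟩
  obtain ⟨h1, h2⟩ := symm_pair D hE hH S hS (fun g => (χ⁻¹ g).toAdd) (fun g k => by
    rw [map_mul, toAdd_mul]) (by
    by_contra hcon
    push Not at hcon
    apply hχ
    refine MonoidHom.ext fun g => ?_
    have h3 : (χ⁻¹ g).toAdd = 0 := hcon g
    rw [MonoidHom.inv_apply, toAdd_inv, neg_eq_zero] at h3
    exact h3) (by
    intro g hg
    have h3 := up_of_inSigma h g (by
      change (χ⁻¹ g).toAdd ≤ 0 at hg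
      rw [MonoidHom.inv_apply, toAdd_inv] at hg
      linarith)
    refine Relation.ReflTransGen.mono ?_ _ _ h3
    rintro a b ⟨ha, hb, hs⟩
    refine ⟨?_, ?_, hs⟩
    · change (χ⁻¹ a).toAdd ≤ 0
      rw [MonoidHom.inv_apply, toAdd_inv]
      exact neg_nonpos.2 ha
    · change (χ⁻¹ b).toAdd ≤ 0
      rw [MonoidHom.inv_apply, toAdd_inv]
      exact neg_nonpos.2 hb)
  refine ⟨fun a => ?_, inSigma_of_up h2⟩
  obtain ⟨x, hx, hx0⟩ := h1 a
  refine ⟨x, hx, fun h0 => hx0 ?_⟩
  rw [MonoidHom.inv_apply, h0, inv_one]
  rfl

end Pool.Agent.Results.MP_04c03c_gt.SigmaOfPairs
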